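import Pool.Agent.N71.SP.Stm

/-!
# Project SP: number of bad `f` for an arbitrary set of primes; few split primes in `Q`

Adapted from `H38R2/CG/CC5.lean` and `R345/IYLow.lean`.
-/

set_option autoImplicit false

namespace Pool.Agent.N614.SP

open Finset Filter Pool.Agent.H38R2.CG Pool.Agent.H38R2.CG.CC5h Pool.Agent.N71.SP
open scoped Classical

lemma bad_step (Q : Finset ℕ) (M y i f : ℕ) (hQ : Q ⊆ PP y) (hM : 1 ≤ M) (hMy : M ≤ y)
    (hf : Squarefree f) (hc : f.Coprime (2 * M)) (hbad : BadQ Q M f) :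
    ∃ c : ℕ, f ∣ c ∧ c ∣ M * f ∧
      (((9 / 10 : ℝ) * Q.card) ^ i) ^ 2 ≤
        Gs ((2 * y) ^ i) (fun n => ((bcoef Q i n : ℕ) : ℂ)) c := by
  have hNM : NeZero M := ⟨by omega⟩
  have hNf : NeZero f := ⟨hf.ne_zero⟩
  obtain ⟨ψ, _, hψ⟩ := hbad
  refine ⟨(theta M f ψ).conductor, dvd_cond M f ψ hf hc, (theta M f ψ).conductor_dvd_level, ?_⟩
  have hPp : ∀ p ∈ Q, p.Prime ∧ y < p ∧ p ≤ 2 * y := by
    intro p hp
    have hp := hQ hp
    unfold PP at hp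
    rw [Finset.mem_filter, Finset.mem_Ioc] at hp
    exact ⟨hp.2, hp.1⟩
  have h1 : ∑ p ∈ Q, ψ (p : ZMod M) * ((jacobiSym (p : ℤ) f : ℤ) : ℂ) =
      ∑ p ∈ Q, (theta M f ψ).primitiveCharacter (p : ZMod (theta M f ψ).conductor) := by
    refine Finset.sum_congr rfl fun p hp => ?_
    obtain ⟨h2, h3, h4⟩ := hPp p hp
    rw [prim_apply M f ψ hf hc p h2]
    intro h5
    have := Nat.le_of_dvd (by omega) h5
    omega
  rw [h1] at hψ
  have h2 := pow_expand Q y i (fun p hp => (hPp p hp).1.one_lt.le)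
    (fun p hp => (hPp p hp).2.2) (theta M f ψ).primitiveCharacter
  have h3 : (((9 / 10 : ℝ) * Q.card) ^ i) ^ 2 ≤
      ‖∑ n ∈ Finset.Icc 1 ((2 * y) ^ i), ((bcoef Q i n : ℕ) : ℂ) *
        (theta M f ψ).primitiveCharacter (n : ZMod (theta M f ψ).conductor)‖ ^ 2 := by
    rw [← h2, norm_pow]
    apply pow_le_pow_left₀ (by positivity)
    exact pow_le_pow_left₀ (by positivity) hψ.le i
  refine h3.trans ?_
  unfold Gs
  have h4 := Finset.single_le_sum (s := (Finset.univ :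
    Finset (DirichletCharacter ℂ (theta M f ψ).conductor)))
    (f := fun χ => (if χ.IsPrimitive then ‖∑ n ∈ Finset.Icc 1 ((2 * y) ^ i),
      ((bcoef Q i n : ℕ) : ℂ) * χ (n : ZMod (theta M f ψ).conductor)‖ ^ 2 else 0))
    (fun χ _ => by
      show 0 ≤ (if χ.IsPrimitive then _ else _)
      split_ifs <;> positivity) (Finset.mem_univ (theta M f ψ).primitiveCharacter)
  rw [if_pos (theta M f ψ).primitiveCharacter_isPrimitive] at h4
  exact h4

theorem t_CC5 : Pool.Agent.N71.SP.E_CC5 := by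
  intro M hM
  obtain ⟨C, hC, hLS⟩ := T_LS
  refine ⟨C * (1 + (M : ℝ) ^ 2), by positivity, max M 3, ?_⟩
  intro y hy Q hQ hQne i hi
  have hyM : M ≤ y := le_trans (le_max_left _ _) hy
  have hy3 : 3 ≤ y := le_trans (le_max_right _ _) hy
  have hy3' : (3 : ℝ) ≤ y := by exact_mod_cast hy3
  set Bad := (Finset.Icc 1 ⌊((2 * y : ℝ)) ^ ((i : ℝ) / 2)⌋₊).filter
    (fun f => Squarefree f ∧ f.Coprime (2 * M) ∧ BadQ Q M f) with hBad
  set F := ⌊((2 * y : ℝ)) ^ ((i : ℝ) / 2)⌋₊ with hF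
  have hFle : (F : ℝ) ≤ ((2 * y : ℝ)) ^ ((i : ℝ) / 2) := Nat.floor_le (by positivity)
  have hF1 : 1 ≤ F := by
    apply Nat.le_floor
    rw [Nat.cast_one]
    exact Real.one_le_rpow (by linarith) (by positivity)
  have hFsq : (F : ℝ) ^ 2 ≤ (2 * y : ℝ) ^ i := by
    calc (F : ℝ) ^ 2 ≤ (((2 * y : ℝ)) ^ ((i : ℝ) / 2)) ^ 2 := pow_le_pow_left₀ (by positivity) hFle 2
      _ = (2 * y : ℝ) ^ i := by
          rw [← Real.rpow_natCast, ← Real.rpow_mul (by positivity), ← Real.rpow_natCast]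
          congr 1
          push_cast; ring
  set b : ℕ → ℂ := fun n => ((bcoef Q i n : ℕ) : ℂ) with hb
  have hstep : ∀ f ∈ Bad, ∃ c : ℕ, f ∣ c ∧ c ∣ M * f ∧
      (((9 / 10 : ℝ) * Q.card) ^ i) ^ 2 ≤ Gs ((2 * y) ^ i) b c := by
    intro f hf
    rw [hBad, Finset.mem_filter] at hf
    exact bad_step Q M y i f hQ hM hyM hf.2.1 hf.2.2.1 hf.2.2.2
  choose! c hc1 hc2 hc3 using hstep
  have hinj : Set.InjOn c Bad := by
    have key : ∀ f ∈ Bad, ∀ f' ∈ Bad, c f = c f' → f ∣ f' := by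
      intro f hf f' hf' h
      have h1 : f ∣ M * f' := (hc1 f hf).trans (h ▸ hc2 f' hf')
      have h2 : f.Coprime M := by
        rw [hBad, Finset.mem_filter] at hf
        exact Nat.Coprime.coprime_dvd_right (Nat.dvd_mul_left M 2) hf.2.2.1
      exact h2.dvd_of_dvd_mul_left h1
    intro f hf f' hf' h
    exact Nat.dvd_antisymm (key f hf f' hf' h) (key f' hf' f hf h.symm)
  have hls := hLS ((2 * y) ^ i) (M * F) b (Nat.one_le_iff_ne_zero.mpr (by positivity))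
    (Nat.one_le_iff_ne_zero.mpr (by positivity))
  have h1 : (Bad.card : ℝ) * (((9 / 10 : ℝ) * Q.card) ^ i) ^ 2 ≤
      ∑ q ∈ Finset.Icc 1 (M * F), Gs ((2 * y) ^ i) b q := by
    calc (Bad.card : ℝ) * (((9 / 10 : ℝ) * Q.card) ^ i) ^ 2
        = ∑ f ∈ Bad, (((9 / 10 : ℝ) * Q.card) ^ i) ^ 2 := by
          rw [Finset.sum_const, nsmul_eq_mul]
      _ ≤ ∑ f ∈ Bad, Gs ((2 * y) ^ i) b (c f) := Finset.sum_le_sum fun f hf => hc3 f hf
      _ = ∑ q ∈ Bad.image c, Gs ((2 * y) ^ i) b q := (Finset.sum_image hinj).symm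
      _ ≤ ∑ q ∈ Finset.Icc 1 (M * F), Gs ((2 * y) ^ i) b q := by
          apply Finset.sum_le_sum_of_subset_of_nonneg
          · intro q hq
            rw [Finset.mem_image] at hq
            obtain ⟨f, hf, rfl⟩ := hq
            have h2 := hc2 f hf
            rw [hBad, Finset.mem_filter, Finset.mem_Icc] at hf
            have hMf : 0 < M * f := Nat.mul_pos (by omega) (by omega)
            rw [Finset.mem_Icc]
            refine ⟨Nat.pos_of_dvd_of_pos h2 hMf, (Nat.le_of_dvd hMf h2).trans ?_⟩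
            exact Nat.mul_le_mul_left M hf.1.2
          · intro q _ _
            exact Gs_nonneg _ _ _
  have h2 : ∑ q ∈ Finset.Icc 1 (M * F), Gs ((2 * y) ^ i) b q ≤
      C * ((((2 * y) ^ i : ℕ) : ℝ) + ((M * F : ℕ) : ℝ) ^ 2) *
        ∑ n ∈ Finset.Icc 1 ((2 * y) ^ i), ‖b n‖ ^ 2 := hls
  have hPp : ∀ p ∈ Q, p.Prime ∧ y < p ∧ p ≤ 2 * y := by
    intro p hp
    have hp := hQ hp
    unfold PP at hp
    rw [Finset.mem_filter, Finset.mem_Ioc] at hp
    exact ⟨hp.2, hp.1⟩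
  have h3 : ∑ n ∈ Finset.Icc 1 ((2 * y) ^ i), ‖b n‖ ^ 2 ≤
      (i.factorial : ℝ) * (Q.card : ℝ) ^ i :=
    sum_sq_bcoef Q (fun p hp => (hPp p hp).1) y i (fun p hp => (hPp p hp).2.2)
  set π : ℝ := (Q.card : ℝ) with hπ
  have hπ0 : 0 < π := by
    rw [hπ]
    exact_mod_cast hQne.card_pos
  have h4 : C * ((((2 * y) ^ i : ℕ) : ℝ) + ((M * F : ℕ) : ℝ) ^ 2) ≤
      C * ((1 + (M : ℝ) ^ 2) * (2 * y : ℝ) ^ i) := by
    apply mul_le_mul_of_nonneg_left _ hC.le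
    push_cast
    have h5 := mul_le_mul_of_nonneg_left hFsq (show (0 : ℝ) ≤ (M : ℝ) ^ 2 by positivity)
    rw [mul_pow (M : ℝ) (F : ℝ) 2]
    linarith
  have h5 : (Bad.card : ℝ) * (((9 / 10 : ℝ) * π) ^ i) ^ 2 ≤
      C * ((1 + (M : ℝ) ^ 2) * (2 * y : ℝ) ^ i) * ((i.factorial : ℝ) * π ^ i) := by
    refine h1.trans (h2.trans ?_)
    apply mul_le_mul h4 h3 (Finset.sum_nonneg fun n _ => by positivity) (by positivity)
  have h6 : (2 * y * π : ℝ) ^ i ≤ (3 * y / π) ^ i * (((9 / 10 : ℝ) * π) ^ i) ^ 2 := by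
    have e1 : (((9 / 10 : ℝ) * π) ^ i) ^ 2 = (((9 / 10 : ℝ) * π) ^ 2) ^ i := by
      rw [← pow_mul, ← pow_mul, mul_comm i 2]
    rw [e1, ← mul_pow]
    apply pow_le_pow_left₀ (by positivity)
    have e2 : 3 * (y : ℝ) / π * ((9 / 10 : ℝ) * π) ^ 2 = 3 * (81 / 100) * (y * π) := by
      field_simp
      ring
    rw [e2]
    have e3 : (0 : ℝ) ≤ y * π := by positivity
    linarith
  have h7 : 0 < (((9 / 10 : ℝ) * π) ^ i) ^ 2 := by positivity
  refine le_of_mul_le_mul_right ?_ h7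
  refine h5.trans ?_
  calc C * ((1 + (M : ℝ) ^ 2) * (2 * y : ℝ) ^ i) * ((i.factorial : ℝ) * π ^ i)
      = C * (1 + (M : ℝ) ^ 2) * (i.factorial : ℝ) * (2 * y * π : ℝ) ^ i := by
        rw [mul_pow (2 * y : ℝ) π]; ring
    _ ≤ C * (1 + (M : ℝ) ^ 2) * (i.factorial : ℝ) *
        ((3 * y / π) ^ i * (((9 / 10 : ℝ) * π) ^ i) ^ 2) :=
        mul_le_mul_of_nonneg_left h6 (by positivity)
    _ = C * (1 + (M : ℝ) ^ 2) * (i.factorial : ℝ) * (3 * y / π) ^ i *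
        (((9 / 10 : ℝ) * π) ^ i) ^ 2 := by ring

/-- very few discriminants have few split primes in `Q` -/
theorem t_LOW : Pool.Agent.N71.SP.E_LOW := by
  obtain ⟨C, hC, y0, hy0⟩ := t_CC5 8 (by norm_num)
  refine ⟨4 * C, by positivity, max y0 2, fun y hy Q hQ hQne i hi X hX => ?_⟩
  have hyy0 : y0 ≤ y := le_trans (le_max_left _ _) hy
  have hy2 : 2 ≤ y := le_trans (le_max_right _ _) hy
  have h1 := hy0 y hyy0 Q hQ hQne i hi
  set F := (Finset.Icc 1 ⌊((2 * y : ℝ)) ^ ((i : ℝ) / 2)⌋₊).filter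
    (fun f => Squarefree f ∧ f.Coprime (2 * 8) ∧ BadQ Q 8 f) with hF
  have hsub : ((Finset.Ioc X (2 * X)).filter (fun D => IsFund D ∧
      ∑ p ∈ Q, (1 + ((jacobiSym (D : ℤ) p : ℤ) : ℝ)) < (Q.card : ℝ) / 20)) ⊆
      (Finset.range 4 ×ˢ F).image (fun z => 2 ^ z.1 * z.2) := by
    intro D hD
    obtain ⟨hD1, hD2, hD3⟩ := Finset.mem_filter.1 hD
    obtain ⟨f, e, ψ, hf1, he, hfs, hfo, hne, hrec⟩ := Pool.Agent.R345.IY.recip D hD2
    rw [Finset.mem_image]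
    refine ⟨(e, f), ?_, hf1.symm⟩
    rw [Finset.mem_product, Finset.mem_range, hF, Finset.mem_filter, Finset.mem_Icc]
    refine ⟨he, ⟨hfo.pos, ?_⟩, hfs, ?_, ψ, hne, ?_⟩
    · apply Nat.le_floor
      refine le_trans ?_ hX
      have h2 : f ≤ D := by
        rw [hf1]
        exact Nat.le_mul_of_pos_left f (by positivity)
      have h3 : f ≤ 2 * X := h2.trans (Finset.mem_Ioc.1 hD1).2
      exact_mod_cast h3
    · rw [show (2 * 8 : ℕ) = 2 ^ 4 by norm_num]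
      exact Nat.Coprime.pow_right 4 (Nat.coprime_two_right.2 hfo)
    · have h2 : ∑ p ∈ Q, ψ (p : ZMod 8) * ((jacobiSym (p : ℤ) f : ℤ) : ℂ) =
          ((∑ p ∈ Q, ((jacobiSym (D : ℤ) p : ℤ) : ℝ) : ℝ) : ℂ) := by
        push_cast
        refine Finset.sum_congr rfl fun p hp => ?_
        have hp := hQ hp
        unfold PP at hp
        rw [Finset.mem_filter, Finset.mem_Ioc] at hp
        exact (hrec p hp.2 (by omega)).symm
      rw [h2, Complex.norm_real, Real.norm_eq_abs]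
      rw [Finset.sum_add_distrib, Finset.sum_const, nsmul_eq_mul, mul_one] at hD3
      have h5 := neg_le_abs (∑ p ∈ Q, ((jacobiSym (D : ℤ) p : ℤ) : ℝ))
      have h6 : (0 : ℝ) < (Q.card : ℝ) := by exact_mod_cast hQne.card_pos
      linarith
  have h2 : ((Finset.range 4 ×ˢ F).image (fun z => 2 ^ z.1 * z.2)).card ≤ 4 * F.card := by
    refine Finset.card_image_le.trans ?_
    rw [Finset.card_product, Finset.card_range]
  have h3 : (((Finset.Ioc X (2 * X)).filter (fun D => IsFund D ∧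
      ∑ p ∈ Q, (1 + ((jacobiSym (D : ℤ) p : ℤ) : ℝ)) < (Q.card : ℝ) / 20)).card : ℝ) ≤
      4 * (F.card : ℝ) := by
    exact_mod_cast (Finset.card_le_card hsub).trans h2
  calc _ ≤ 4 * (F.card : ℝ) := h3
    _ ≤ 4 * (C * (i.factorial : ℝ) * (3 * y / Q.card) ^ i) := by linarith
    _ = _ := by ring

end Pool.Agent.N614.SP
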